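import Pool.Agent.Cogrowth637.Main

/-!
# The commutator subgroup has the same multivariate cogrowth as the free group
-/

namespace Pool.Agent.Results.MP_dc78ae_al.CommutatorSubgroup

open Filter Pool.Agent.Cogrowth637
open scoped ENNReal RealInnerProductSpace commutatorElement

/-- Sets with small boundary give almost invariant vectors. -/
lemma vector_of_set {G : Type*} [Group G] [DecidableEq G] {A B : Finset G} (hAB : A ⊆ B)
    {ε : ℝ} (hB : (B.card : ℝ) ≤ (1 + ε) * A.card) (g : G) (hg : ∀ x ∈ A, g * x ∈ B) :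
    (1 - ε) * ‖∑ x ∈ A, (bs x : V G)‖ ^ 2 ≤
      inner ℝ (lt g (∑ x ∈ A, (bs x : V G))) (∑ x ∈ A, (bs x : V G)) := by
  have hev : ∀ y : G, ev (∑ x ∈ A, (bs x : V G)) y = if y ∈ A then 1 else 0 := by
    intro y
    rw [ev_sum]
    by_cases hy : y ∈ A
    · rw [if_pos hy, Finset.sum_eq_single y]
      · exact ev_bs_self y
      · intro x _ hx
        exact ev_bs_ne hx
      · intro h; exact absurd hy h
    · rw [if_neg hy]
      refine Finset.sum_eq_zero fun x hx => ev_bs_ne ?_
      rintro rfl
      exact hy hx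
  have hnorm : ‖∑ x ∈ A, (bs x : V G)‖ ^ 2 = A.card := by
    rw [← real_inner_self_eq_norm_sq, sum_inner]
    have : ∀ x ∈ A, inner ℝ (bs x) (∑ x ∈ A, (bs x : V G)) = (1 : ℝ) := by
      intro x hx
      rw [inner_bs, hev, if_pos hx]
    rw [Finset.sum_congr rfl this, Finset.sum_const, nsmul_eq_mul, mul_one]
  rw [hnorm, map_sum, sum_inner]
  have h1 : ∀ x ∈ A, inner ℝ (lt g (bs x)) (∑ x ∈ A, (bs x : V G)) =
      if g * x ∈ A then (1 : ℝ) else 0 := by
    intro x _
    rw [lt_bs, inner_bs, hev]
  rw [Finset.sum_congr rfl h1, ← Finset.sum_filter, Finset.sum_const, nsmul_eq_mul, mul_one]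
  -- count
  have h2 : (A.filter (fun x => ¬ (g * x ∈ A))).card ≤ (B \ A).card := by
    refine Finset.card_le_card_of_injOn (fun x => g * x) ?_ ?_
    · intro x hx
      rw [Finset.mem_coe, Finset.mem_filter] at hx
      exact Finset.mem_sdiff.mpr ⟨hg x hx.1, hx.2⟩
    · intro a _ b _ hab
      exact mul_left_cancel hab
  have h3 : (B \ A).card + A.card = B.card := by
    rw [Finset.card_sdiff_add_card_eq_card hAB]
  have h4 : (A.filter (fun x => g * x ∈ A)).card + (A.filter (fun x => ¬ (g * x ∈ A))).card =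
      A.card := Finset.card_filter_add_card_filter_not _
  have h5 : (A.card : ℝ) ≤ (A.filter (fun x => g * x ∈ A)).card + (B.card - A.card) := by
    have h6 : A.card + A.card ≤ (A.filter (fun x => g * x ∈ A)).card + B.card := by omega
    have h7 : (A.card : ℝ) + A.card ≤ (A.filter (fun x => g * x ∈ A)).card + B.card := by
      exact_mod_cast h6
    linarith
  linarith

/-- Sequences of polynomially growing sets. -/
lemma exists_small_growth {a : ℕ → ℕ} (ha : ∀ n, 1 ≤ a n) {m : ℕ}
    (hpoly : ∀ n, a n ≤ (2 * n + 1) ^ m) {ε : ℝ} (hε : 0 < ε) :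
    ∃ n, (a (n + 1) : ℝ) ≤ (1 + ε) * a n := by
  by_contra hcon
  push Not at hcon
  have h1 : ∀ n, (1 + ε) ^ n ≤ (a n : ℝ) := by
    intro n
    induction n with
    | zero => rw [pow_zero]; exact_mod_cast ha 0
    | succ n ih =>
      rw [pow_succ]
      have := hcon n
      nlinarith
  have h2 : Tendsto (fun n : ℕ => ((n : ℝ)) ^ m / (1 + ε) ^ n) atTop (nhds 0) :=
    tendsto_pow_const_div_const_pow_of_one_lt m (by linarith)
  have h3 : Tendsto (fun n : ℕ => (3 : ℝ) ^ m * ((n : ℝ) ^ m / (1 + ε) ^ n)) atTop (nhds 0) := by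
    have := h2.const_mul ((3 : ℝ) ^ m)
    rwa [mul_zero] at this
  obtain ⟨n, hn1, hn2⟩ := ((h3.eventually_lt_const (show (0 : ℝ) < 1 by norm_num)).and
    (eventually_ge_atTop 1)).exists
  have h4 : (a n : ℝ) ≤ (3 : ℝ) ^ m * (n : ℝ) ^ m := by
    have h5 : (a n : ℝ) ≤ ((2 * n + 1 : ℕ) : ℝ) ^ m := by exact_mod_cast hpoly n
    refine h5.trans ?_
    rw [← mul_pow]
    refine pow_le_pow_left₀ (Nat.cast_nonneg _) ?_ m
    have : 2 * n + 1 ≤ 3 * n := by omega
    exact_mod_cast this
  have h6 : (0 : ℝ) < (1 + ε) ^ n := pow_pos (by linarith) n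
  rw [← mul_div_assoc, div_lt_one h6] at hn1
  linarith [h1 n]

variable {m : ℕ}

lemma comm_quot (a b : FreeGroup (Fin m) ⧸ commutator (FreeGroup (Fin m))) : a * b = b * a := by
  obtain ⟨x, rfl⟩ := QuotientGroup.mk_surjective a
  obtain ⟨y, rfl⟩ := QuotientGroup.mk_surjective b
  exact (inferInstance : CommGroup (Abelianization (FreeGroup (Fin m)))).mul_comm
    (Abelianization.of x) (Abelianization.of y)

theorem AI_commutator : AI (commutator (FreeGroup (Fin m))) := by
  classical
  intro ε hε hε1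
  let G := FreeGroup (Fin m) ⧸ commutator (FreeGroup (Fin m))
  let _ : CommGroup G := { (inferInstance : Group G) with mul_comm := comm_quot }
  let g : Fin m → G := fun i => QuotientGroup.mk' _ (FreeGroup.of i)
  let φ : (Fin m → ℤ) → G := fun v => ∏ i, g i ^ (v i)
  let box : ℕ → Finset (Fin m → ℤ) := fun n => Fintype.piFinset fun _ => Finset.Icc (-(n : ℤ)) n
  let A : ℕ → Finset G := fun n => (box n).image φ
  have hbox : ∀ n, (box n).card = (2 * n + 1) ^ m := by
    intro n
    show (Fintype.piFinset fun _ : Fin m => Finset.Icc (-(n : ℤ)) n).card = _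
    rw [Fintype.card_piFinset_const, Int.card_Icc]
    congr 1
    omega
  have hA1 : ∀ n, 1 ≤ (A n).card := by
    intro n
    refine Finset.card_pos.mpr ⟨φ 0, Finset.mem_image_of_mem _ ?_⟩
    refine Fintype.mem_piFinset.mpr fun i => ?_
    rw [Finset.mem_Icc]
    show -(n : ℤ) ≤ 0 ∧ (0 : ℤ) ≤ n
    omega
  have hAp : ∀ n, (A n).card ≤ (2 * n + 1) ^ m := fun n => by
    rw [← hbox]; exact Finset.card_image_le
  obtain ⟨n, hn⟩ := exists_small_growth (a := fun n => (A n).card) hA1 hAp hε
  have hsub : A n ⊆ A (n + 1) := by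
    refine Finset.image_subset_image ?_
    intro v hv
    rw [Fintype.mem_piFinset] at hv ⊢
    intro i
    have := hv i
    rw [Finset.mem_Icc] at this ⊢
    push_cast
    omega
  have hstep : ∀ s : Fin m × Bool, ∀ x ∈ A n,
      (QuotientGroup.mk' (commutator (FreeGroup (Fin m))) (el s) : G) * x ∈ A (n + 1) := by
    rintro ⟨i, b⟩ x hx
    obtain ⟨v, hv, rfl⟩ := Finset.mem_image.mp hx
    have hv' := Fintype.mem_piFinset.mp hv
    have hel : ∃ z : ℤ, (z = 1 ∨ z = -1) ∧ (QuotientGroup.mk' (commutator (FreeGroup (Fin m))) (el (i, b)) : G) = g i ^ z := by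
      cases b
      · refine ⟨-1, Or.inr rfl, ?_⟩
        have : el (i, false) = (FreeGroup.of i)⁻¹ := rfl
        rw [this, map_inv, zpow_neg_one]
      · refine ⟨1, Or.inl rfl, ?_⟩
        rw [zpow_one]
        rfl
    obtain ⟨z, hz, hz2⟩ := hel
    rw [hz2]
    refine Finset.mem_image.mpr ⟨Function.update v i (v i + z), ?_, ?_⟩
    · rw [Fintype.mem_piFinset]
      intro k
      by_cases hk : k = i
      · subst hk
        rw [Function.update_self, Finset.mem_Icc]
        have := hv' k
        rw [Finset.mem_Icc] at this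
        push_cast
        omega
      · rw [Function.update_of_ne hk, Finset.mem_Icc]
        have := hv' k
        rw [Finset.mem_Icc] at this
        push_cast
        omega
    · show ∏ k, g k ^ (Function.update v i (v i + z) k) = g i ^ z * ∏ k, g k ^ (v k)
      rw [← Finset.mul_prod_erase _ _ (Finset.mem_univ i),
        ← Finset.mul_prod_erase (f := fun k => g k ^ (v k)) _ (Finset.mem_univ i),
        Function.update_self, ← mul_assoc, ← zpow_add, add_comm z]
      congr 1
      refine Finset.prod_congr rfl fun k hk => ?_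
      rw [Function.update_of_ne (Finset.ne_of_mem_erase hk)]
  refine ⟨∑ x ∈ A n, (bs x : V G), ?_, fun s => ?_⟩
  · rw [norm_pos_iff]
    intro h0
    obtain ⟨y, hy⟩ := Finset.card_pos.mp (hA1 n)
    have h1 : ev (∑ x ∈ A n, (bs x : V G)) y = 0 := by rw [h0]; rfl
    rw [ev_sum, Finset.sum_eq_single y, ev_bs_self] at h1
    · exact one_ne_zero h1
    · intro x _ hx
      exact ev_bs_ne hx
    · intro h; exact absurd hy h
  · exact vector_of_set hsub hn _ (hstep s)

/-- Positive answer to Q2 (the case `m = 2`), for every rank `m ≥ 2`: the commutator subgroup of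
`F_m` has the same multivariate cogrowth as `F_m` in every direction. -/
theorem result (m : ℕ) (hm : 2 ≤ m) :
    ∀ r ∈ stdSimplex ℝ (Fin m), psi (commutator (FreeGroup (Fin m))) r = psi ⊤ r := by
  intro r hr
  let a : FreeGroup (Fin m) := FreeGroup.of ⟨0, by omega⟩
  let b : FreeGroup (Fin m) := FreeGroup.of ⟨1, by omega⟩
  have hv : ⁅a, b⁆ ∈ commutator (FreeGroup (Fin m)) :=
    Subgroup.commutator_mem_commutator (Subgroup.mem_top a) (Subgroup.mem_top b)
  have hv1 : ⁅a, b⁆ ≠ 1 := by
    intro h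
    have h1 : a * b = b * a := commutatorElement_eq_one_iff_mul_comm.mp h
    have h2 := congrArg FreeGroup.toWord h1
    have e1 : (a * b).toWord = [(⟨0, by omega⟩, true), (⟨1, by omega⟩, true)] := by
      show (FreeGroup.of _ * FreeGroup.of _).toWord = _
      unfold FreeGroup.of
      rw [FreeGroup.mul_mk, FreeGroup.toWord_mk]
      rfl
    have e2 : (b * a).toWord = [(⟨1, by omega⟩, true), (⟨0, by omega⟩, true)] := by
      show (FreeGroup.of _ * FreeGroup.of _).toWord = _
      unfold FreeGroup.of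
      rw [FreeGroup.mul_mk, FreeGroup.toWord_mk]
      rfl
    rw [e1, e2] at h2
    simp at h2
  exact psi_eq hm _ AI_commutator hv hv1 hr

end Pool.Agent.Results.MP_dc78ae_al.CommutatorSubgroup
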