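import Pool.Agent.Cogrowth637.Main

/-!
# Maximal cogrowth implies equality in every direction
-/

namespace Pool.Agent.Results.MP_dc78ae_al.MaxCogrowth

open Filter Pool.Agent.Cogrowth637
open scoped ENNReal RealInnerProductSpace

variable {m : ℕ}

lemma kerCount_ge_of_log (N : Subgroup (FreeGroup (Fin m))) [N.Normal] {b R : ℝ} (hR : 0 < R)
    (h : (b : EReal) < ENNReal.log (nu N (shell m R ∩ Set.univ)) / (R : EReal)) :
    Real.exp (b * R) ≤ kerCount (QuotientGroup.mk' N) ⌈R⌉₊ := by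
  classical
  have h1 := (EReal.lt_div_iff (by exact_mod_cast hR) (EReal.coe_ne_top R)).mp h
  have h2 : ((b * R : ℝ) : EReal) = ENNReal.log (ENNReal.ofReal (Real.exp (b * R))) := by
    rw [ENNReal.log_ofReal_of_pos (Real.exp_pos _), Real.log_exp]
  rw [← EReal.coe_mul, h2, ENNReal.log_lt_log_iff] at h1
  have h3 : nu N (shell m R ∩ Set.univ) ≤ ((kerCount (QuotientGroup.mk' N) ⌈R⌉₊ : ℕ) : ℝ≥0∞) := by
    unfold nu kerCount
    have h4 : ({w | w ∈ N ∧ wpVec w ∈ shell m R ∩ Set.univ} :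
        Set (FreeGroup (Fin m))).encard ≤ (((sphF (Fin m) ⌈R⌉₊).filter
          (fun w => QuotientGroup.mk' N w = 1)).card : ℕ∞) := by
      rw [← Set.encard_coe_eq_coe_finsetCard]
      refine Set.encard_le_encard ?_
      rintro w ⟨hw, ⟨ha, hb⟩, _⟩
      rw [Finset.mem_coe, Finset.mem_filter, mem_sphF]
      exact ⟨shell_subset hR ha hb, (QuotientGroup.eq_one_iff w).mpr hw⟩
    have h5 : ((({w | w ∈ N ∧ wpVec w ∈ shell m R ∩ Set.univ} :
        Set (FreeGroup (Fin m))).encard : ℕ∞) : ℝ≥0∞) ≤ ((((sphF (Fin m) ⌈R⌉₊).filter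
          (fun w => QuotientGroup.mk' N w = 1)).card : ℕ) : ℝ≥0∞) := by exact_mod_cast h4
    convert h5
  have h5 := h1.le.trans h3
  have h6 : ENNReal.ofReal (Real.exp (b * R)) ≤
      ENNReal.ofReal ((kerCount (QuotientGroup.mk' N) ⌈R⌉₊ : ℕ) : ℝ) := by
    rw [ENNReal.ofReal_natCast]; exact h5
  exact (ENNReal.ofReal_le_ofReal_iff (Nat.cast_nonneg _)).mp h6

lemma frequently_kerCount (N : Subgroup (FreeGroup (Fin m))) [N.Normal] {q : ℝ} (hq : 1 < q)
    (h : ((Real.log q : ℝ) : EReal) ≤ tau N Set.univ) :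
    ∀ c : ℝ, 0 < c → c < q →
      ∃ᶠ n in atTop, c ^ n ≤ (kerCount (QuotientGroup.mk' N) n : ℝ) := by
  intro c hc hcq
  set lc : ℝ := max 0 (Real.log c) with hlc
  have hlcq : lc < Real.log q := max_lt (Real.log_pos hq) (Real.log_lt_log hc hcq)
  obtain ⟨b, hb1, hb2⟩ := exists_between hlcq
  have htau : (b : EReal) < tau N Set.univ := lt_of_lt_of_le (by exact_mod_cast hb2) h
  have hfreq := frequently_lt_of_lt_limsup (by isBoundedDefault) htau
  rw [frequently_atTop]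
  intro n0
  obtain ⟨R, hR1, hR2⟩ := (hfreq.and_eventually (eventually_ge_atTop
    (max 1 (max (n0 : ℝ) (lc / (b - lc)))))).exists
  have hR3 : 1 ≤ R := (le_max_left _ _).trans hR2
  have hR4 : (n0 : ℝ) ≤ R := ((le_max_left _ _).trans (le_max_right _ _)).trans hR2
  have hR5 : lc / (b - lc) ≤ R := ((le_max_right _ _).trans (le_max_right _ _)).trans hR2
  have hRn : R ≤ ⌈R⌉₊ := Nat.le_ceil R
  have hnR : (⌈R⌉₊ : ℝ) < R + 1 := Nat.ceil_lt_add_one (by linarith)
  refine ⟨⌈R⌉₊, ?_, ?_⟩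
  · have : (n0 : ℝ) ≤ ⌈R⌉₊ := hR4.trans hRn
    exact_mod_cast this
  · refine le_trans ?_ (kerCount_ge_of_log N (by linarith) hR1)
    have h1 : c ^ ⌈R⌉₊ = Real.exp (⌈R⌉₊ * Real.log c) := by
      rw [Real.exp_nat_mul, Real.exp_log hc]
    rw [h1]
    refine Real.exp_le_exp.mpr ?_
    rw [div_le_iff₀ (by linarith)] at hR5
    have hlc0 : 0 ≤ lc := le_max_left _ _
    have h2 : (⌈R⌉₊ : ℝ) * Real.log c ≤ ⌈R⌉₊ * lc :=
      mul_le_mul_of_nonneg_left (le_max_right _ _) (Nat.cast_nonneg _)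
    have h3 : (⌈R⌉₊ : ℝ) * lc ≤ (R + 1) * lc := mul_le_mul_of_nonneg_right hnR.le hlc0
    nlinarith

/-- Full positive answer to Q1: if the multivariate cogrowth of a normal subgroup `N` of `F_m`
attains the maximal value `log (2m-1)`, then it coincides with the multivariate growth of `F_m`
in every direction. -/
theorem result (m : ℕ) (hm : 2 ≤ m) (N : Subgroup (FreeGroup (Fin m))) [N.Normal]
    (hmax : IsGreatest (psi N '' stdSimplex ℝ (Fin m))
      ((Real.log (2 * (m : ℝ) - 1) : ℝ) : EReal)) :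
    ∀ r ∈ stdSimplex ℝ (Fin m), psi N r = psi ⊤ r := by
  obtain ⟨⟨r0, _, h0⟩, _⟩ := hmax
  set q : ℕ := 2 * m - 1 with hqdef
  have hqR : (q : ℝ) = 2 * m - 1 := by
    rw [hqdef, Nat.cast_sub (by omega)]
    push_cast; ring
  have hq3 : (1 : ℝ) < q := by
    have : 1 < q := by omega
    exact_mod_cast this
  have htau : ((Real.log q : ℝ) : EReal) ≤ tau N Set.univ := by
    rw [hqR, ← h0]
    exact iInf₂_le _ ⟨⟨isOpen_univ, fun _ _ _ _ => Set.mem_univ _⟩, Set.mem_univ _⟩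
  have hcog := frequently_kerCount N hq3 htau
  have hcard : q + 1 = Fintype.card (Fin m × Bool) := by
    rw [Fintype.card_prod, Fintype.card_fin, Fintype.card_bool]
    omega
  have hAI : AI N := fun ε hε hε1 =>
    almost_invariant (QuotientGroup.mk' N) hcard (by omega) hcog hε hε1
  obtain ⟨v, hv, hv1⟩ : ∃ v ∈ N, v ≠ 1 := by
    obtain ⟨n, hn1, hn2⟩ := ((hcog 1 one_pos hq3).and_eventually (eventually_ge_atTop 1)).exists
    rw [one_pow] at hn1
    have h1 : 1 ≤ kerCount (QuotientGroup.mk' N) n := by exact_mod_cast hn1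
    unfold kerCount at h1
    obtain ⟨v, hv⟩ := Finset.card_pos.mp h1
    simp only [Finset.mem_filter, mem_sphF] at hv
    obtain ⟨hv2, hv3⟩ := hv
    refine ⟨v, (QuotientGroup.eq_one_iff v).mp hv3, ?_⟩
    rintro rfl
    rw [FreeGroup.norm_one] at hv2
    omega
  exact fun r hr => psi_eq hm N hAI hv hv1 hr

end Pool.Agent.Results.MP_dc78ae_al.MaxCogrowth
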